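import Pool.Agent.X228.Ontology

/-!
# MP_c90ce4_lc: `L1` embeds in `S4.2`

`χ(x, y) = ¬x ∧ ((¬y ∧ □(x ↔ y)) ∨ (y ∧ ◇(x ∧ y)))` gives a faithful translation of `L1` into
`S4.2`, and into every normal modal logic contained in `S4.2`.
-/

set_option autoImplicit false

namespace Pool.Agent.Results.MP_c90ce4_lc.S42Embedding

open Pool.Agent.X228.Ontology

/-- There is a modal formula `χ(x, y)` such that the translation `T_χ` of `L1` is sound and
faithful for `S4.2` (and for every normal modal logic contained in `S4.2`), whatever the injective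
assignment `pv : a ↦ p_a` is. -/
theorem result : ∃ χ : MForm (Fin 2), ∀ pv : ℕ → ℕ, Function.Injective pv →
    (∀ φ : LForm, L1 φ ↔ trans χ pv φ ∈ S42) ∧
    ∀ Λ : Set (MForm ℕ), IsNormal Λ → Λ ⊆ S42 → ∀ φ : LForm, L1 φ ↔ trans χ pv φ ∈ Λ := by
  refine ⟨F0, fun pv hpv => ⟨embeds (smallestNormal_isNormal _) S42_subset hpv, ?_⟩⟩
  intro Λ hΛ hsub
  exact embeds hΛ (hsub.trans S42_subset) hpv

end Pool.Agent.Results.MP_c90ce4_lc.S42Embedding
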